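import Mathlib

set_option autoImplicit false

namespace Pool.Agent.TH99.SubEmb

universe u v w w'

/-- a lattice homomorphism (preserving binary meets and joins) which is injective -/
def IsLatticeEmbedding {L : Type w} {M : Type w'} [Lattice L] [Lattice M] (f : L → M) : Prop :=
  Function.Injective f ∧ (∀ x y : L, f (x ⊓ y) = f x ⊓ f y) ∧ (∀ x y : L, f (x ⊔ y) = f x ⊔ f y)

theorem IsLatticeEmbedding.comp {L : Type w} {M : Type w'} {N : Type v} [Lattice L] [Lattice M]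
    [Lattice N] {g : M → N} {f : L → M} (hg : IsLatticeEmbedding g) (hf : IsLatticeEmbedding f) :
    IsLatticeEmbedding (fun x => g (f x)) :=
  ⟨hg.1.comp hf.1, fun x y => by simp only [hf.2.1, hg.2.1], fun x y => by
    simp only [hf.2.2, hg.2.2]⟩

theorem IsLatticeEmbedding.mono {L : Type w} {M : Type w'} [Lattice L] [Lattice M] {f : L → M}
    (hf : IsLatticeEmbedding f) {x y : L} (h : x ≤ y) : f x ≤ f y := by
  have h1 := hf.2.1 x y
  rw [inf_eq_left.mpr h] at h1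
  exact inf_eq_left.mp h1.symm

/-- the group `(ℤ/n)³` -/
abbrev T (n : ℕ) : Type := Fin 3 → ZMod n

/-- cyclic subgroup generated by `(x, y, z)` -/
def cyc {n : ℕ} (x y z : ZMod n) : AddSubgroup (T n) where
  carrier := {t | ∃ s : ZMod n, t = ![s * x, s * y, s * z]}
  zero_mem' := ⟨0, by ext i; fin_cases i <;> simp⟩
  add_mem' := by
    rintro a b ⟨s, rfl⟩ ⟨t, rfl⟩
    refine ⟨s + t, ?_⟩
    ext i; fin_cases i <;> simp [add_mul]
  neg_mem' := by
    rintro a ⟨s, rfl⟩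
    refine ⟨-s, ?_⟩
    ext i; fin_cases i <;> simp

theorem mem_cyc {n : ℕ} {x y z : ZMod n} {t : T n} :
    t ∈ cyc x y z ↔ ∃ s : ZMod n, t = ![s * x, s * y, s * z] := Iff.rfl

/-- membership in a join of two such groups -/
theorem mem_sup_cyc {n : ℕ} {x y z x' y' z' : ZMod n} {t : T n}
    (h : t ∈ cyc x y z ⊔ cyc x' y' z') :
    ∃ s r : ZMod n, t 0 = s * x + r * x' ∧ t 1 = s * y + r * y' ∧ t 2 = s * z + r * z' := by
  rw [AddSubgroup.mem_sup] at h
  obtain ⟨a, ⟨s, rfl⟩, b, ⟨r, rfl⟩, rfl⟩ := h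
  exact ⟨s, r, by simp, by simp, by simp⟩

theorem ext3 {n : ℕ} {t : T n} {a b c : ZMod n} (h0 : t 0 = a) (h1 : t 1 = b) (h2 : t 2 = c) :
    t = ![a, b, c] := by
  ext i; fin_cases i <;> simp [h0, h1, h2]

/-- the key inequality in `Sub ((ℤ/n)³)` -/
theorem key {n : ℕ} (j : ZMod n) :
    (((cyc (1 : ZMod n) 0 (-1) ⊔ cyc 0 1 0) ⊓ (cyc (1 : ZMod n) j 0 ⊔ cyc 0 0 1)) ⊔
      ((cyc (1 : ZMod n) 0 (-1) ⊔ cyc 1 1 0) ⊓ (cyc (0 : ZMod n) 1 0 ⊔ cyc 0 0 1))) ⊓
      (cyc (1 : ZMod n) 0 0 ⊔ cyc 0 1 0) ≤ cyc 1 (j + 1) 0 := by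
  intro t ht
  obtain ⟨h1, h2⟩ := AddSubgroup.mem_inf.mp ht
  rw [AddSubgroup.mem_sup] at h1
  obtain ⟨a, ha, b, hb, rfl⟩ := h1
  obtain ⟨ha1, ha2⟩ := AddSubgroup.mem_inf.mp ha
  obtain ⟨hb1, hb2⟩ := AddSubgroup.mem_inf.mp hb
  obtain ⟨s1, r1, e1, e2, e3⟩ := mem_sup_cyc ha1
  obtain ⟨s2, r2, f1, f2, f3⟩ := mem_sup_cyc ha2
  obtain ⟨s3, r3, g1, g2, g3⟩ := mem_sup_cyc hb1
  obtain ⟨s4, r4, k1, k2, k3⟩ := mem_sup_cyc hb2
  obtain ⟨s5, r5, l1, l2, l3⟩ := mem_sup_cyc h2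
  simp only [Pi.add_apply] at l1 l2 l3
  simp only [mul_one, mul_zero, add_zero, zero_add, mul_neg] at *
  refine ⟨a 0, ?_⟩
  refine ext3 ?_ ?_ ?_
  · simp only [Pi.add_apply, mul_one]
    rw [k1]; ring
  · simp only [Pi.add_apply]
    have : b 1 = a 0 := by
      have h4 : b 0 = 0 := k1
      have h5 : s3 = -r3 := by
        have := g1.symm.trans h4
        linear_combination this
      have h6 : a 2 + b 2 = 0 := l3
      have h7 : a 2 = - a 0 := by rw [e3, e1]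
      rw [g2]
      have h8 : b 2 = r3 := by rw [g3, h5]; ring
      linear_combination h6 - h7 - h8
    rw [this, f2, ← f1]; ring
  · simp only [Pi.add_apply, mul_zero]
    exact l3


theorem le_sup_1 {n : ℕ} : cyc (1 : ZMod n) 0 0 ≤ cyc 1 1 0 ⊔ cyc 0 1 0 := by
  rintro t ⟨s, rfl⟩
  rw [AddSubgroup.mem_sup]
  refine ⟨_, ⟨s, rfl⟩, _, ⟨-s, rfl⟩, ?_⟩
  ext i; fin_cases i <;> simp

theorem le_sup_2 {n : ℕ} : cyc (1 : ZMod n) 0 0 ≤ cyc 1 0 (-1) ⊔ cyc 0 0 1 := by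
  rintro t ⟨s, rfl⟩
  rw [AddSubgroup.mem_sup]
  refine ⟨_, ⟨s, rfl⟩, _, ⟨s, rfl⟩, ?_⟩
  ext i; fin_cases i <;> simp

theorem inf_a1 {n : ℕ} : cyc (1 : ZMod n) 1 0 ⊓ cyc 1 0 0 ≤ ⊥ := by
  intro t ht
  obtain ⟨⟨s, rfl⟩, ⟨r, h⟩⟩ := AddSubgroup.mem_inf.mp ht
  have h1 := congrFun h 1
  simp at h1
  rw [AddSubgroup.mem_bot]
  ext i; fin_cases i <;> simp [h1]

theorem inf_a2 {n : ℕ} (j : ZMod n) : cyc (1 : ZMod n) j 0 ⊓ cyc 0 1 0 ≤ ⊥ := by
  intro t ht
  obtain ⟨⟨s, rfl⟩, ⟨r, h⟩⟩ := AddSubgroup.mem_inf.mp ht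
  have h1 := congrFun h 0
  simp at h1
  rw [AddSubgroup.mem_bot]
  ext i; fin_cases i <;> simp [h1]

section main

variable {D : Type u} [DivisionRing D] {V : Type v} [AddCommGroup V] [Module D V]

/-- the induction: if `x ∈ f a₁`, `y ∈ f a₂`, `x + y ∈ f ⟨(1,1,0)⟩` then
`x + j y ∈ f ⟨(1,j,0)⟩` -/
theorem step {n : ℕ} {f : AddSubgroup (T n) → Submodule D V} (hf : IsLatticeEmbedding f)
    {x y z : V} (hx : x ∈ f (cyc 1 0 0)) (hy : y ∈ f (cyc 0 1 0)) (hz : z ∈ f (cyc 0 0 1))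
    (hxy : x + y ∈ f (cyc 1 1 0)) (hxz : x - z ∈ f (cyc 1 0 (-1))) (j : ℕ) :
    x + j • y ∈ f (cyc 1 (j : ZMod n) 0) := by
  induction j with
  | zero => simpa using hx
  | succ j ih =>
    have h1 := hf.mono (key (j : ZMod n))
    rw [hf.2.1, hf.2.2, hf.2.1, hf.2.1, hf.2.2, hf.2.2, hf.2.2, hf.2.2, hf.2.2] at h1
    have h2 : x + (j + 1) • y ∈ f (cyc (1 : ZMod n) ((j : ZMod n) + 1) 0) := by
      apply h1
      refine Submodule.mem_inf.mpr ⟨?_, ?_⟩
      · rw [Submodule.mem_sup]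
        refine ⟨x + j • y - z, ?_, y + z, ?_, ?_⟩
        · refine Submodule.mem_inf.mpr ⟨?_, ?_⟩
          · have : x + j • y - z = (x - z) + j • y := by abel
            rw [this]
            exact Submodule.add_mem_sup hxz ((f (cyc 0 1 0)).nsmul_mem hy j)
          · have : x + j • y - z = (x + j • y) + (-z) := by abel
            rw [this]
            exact Submodule.add_mem_sup ih (neg_mem hz)
        · refine Submodule.mem_inf.mpr ⟨?_, ?_⟩
          · have : y + z = -(x - z) + (x + y) := by abel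
            rw [this]
            exact Submodule.add_mem_sup (neg_mem hxz) hxy
          · exact Submodule.add_mem_sup hy hz
        · rw [add_smul, one_smul]; abel
      · exact Submodule.add_mem_sup hx ((f (cyc 0 1 0)).nsmul_mem hy (j + 1))
    rw [Nat.cast_succ]
    exact h2

theorem exists_y {n : ℕ} {f : AddSubgroup (T n) → Submodule D V} (hf : IsLatticeEmbedding f)
    {x : V} (hx : x ∈ f (cyc 1 0 0)) : ∃ y ∈ f (cyc 0 1 0), x + y ∈ f (cyc 1 1 0) := by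
  have h := hf.mono (le_sup_1 (n := n))
  rw [hf.2.2] at h
  obtain ⟨g, hg, y, hy, rfl⟩ := Submodule.mem_sup.mp (h hx)
  exact ⟨-y, neg_mem hy, by simpa using hg⟩

theorem exists_z {n : ℕ} {f : AddSubgroup (T n) → Submodule D V} (hf : IsLatticeEmbedding f)
    {x : V} (hx : x ∈ f (cyc 1 0 0)) : ∃ z ∈ f (cyc 0 0 1), x - z ∈ f (cyc 1 0 (-1)) := by
  have h := hf.mono (le_sup_2 (n := n))
  rw [hf.2.2] at h
  obtain ⟨g, hg, z, hz, rfl⟩ := Submodule.mem_sup.mp (h hx)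
  exact ⟨z, hz, by simpa using hg⟩

theorem main {k m : ℕ} (hk : 2 ≤ k) (hm : 2 ≤ m)
    {f : AddSubgroup (T (k * m)) → Submodule D V} (hf : IsLatticeEmbedding f) : False := by
  have hkm0 : k * m ≠ 0 := by positivity
  by_cases hD : (k : D) = 0
  · -- then `f a₁ ≤ f (G_k ⊓ a₁)`
    have h1 : f (cyc 1 0 0) ≤ f (cyc 1 (k : ZMod (k * m)) 0) := by
      intro x hx
      obtain ⟨y, hy, hxy⟩ := exists_y hf hx
      obtain ⟨z, hz, hxz⟩ := exists_z hf hx
      have h := step hf hx hy hz hxy hxz k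
      have h2 : k • y = 0 := by
        rw [← Nat.cast_smul_eq_nsmul D k y, hD, zero_smul]
      rwa [h2, add_zero] at h
    have h2 : f (cyc 1 0 0 ⊓ cyc 1 (k : ZMod (k * m)) 0) = f (cyc 1 0 0) := by
      rw [hf.2.1, inf_eq_left.mpr h1]
    have h3 : cyc 1 0 0 ≤ cyc 1 (k : ZMod (k * m)) 0 := inf_eq_left.mp (hf.1 h2)
    have h4 : (![1, 0, 0] : T (k * m)) ∈ cyc 1 (k : ZMod (k * m)) 0 := h3 ⟨1, by simp⟩
    obtain ⟨s, hs⟩ := h4
    have h5 := congrFun hs 0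
    have h6 := congrFun hs 1
    simp at h5 h6
    rw [← h5, one_mul] at h6
    rw [eq_comm, ZMod.natCast_eq_zero_iff] at h6
    have := Nat.le_of_dvd (by omega) h6
    nlinarith
  · have h1 : f (cyc 1 (k : ZMod (k * m)) 0 ⊓ cyc 1 0 0) ≤ f ⊥ := by
      intro x hx
      rw [hf.2.1, Submodule.mem_inf] at hx
      obtain ⟨hx1, hx⟩ := hx
      obtain ⟨y, hy, hxy⟩ := exists_y hf hx
      obtain ⟨z, hz, hxz⟩ := exists_z hf hx
      have h := step hf hx hy hz hxy hxz k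
      have h2 : k • y ∈ f (cyc 1 (k : ZMod (k * m)) 0) := by
        have := sub_mem h hx1
        simpa using this
      have h3 : k • y ∈ f ⊥ := by
        have h4 := hf.mono (inf_a2 (k : ZMod (k * m)))
        rw [hf.2.1] at h4
        exact h4 (Submodule.mem_inf.mpr ⟨h2, (f (cyc 0 1 0)).nsmul_mem hy k⟩)
      have h4 : y ∈ f ⊥ := by
        rw [← Nat.cast_smul_eq_nsmul D k y] at h3
        have := (f ⊥).smul_mem (k : D)⁻¹ h3
        rwa [smul_smul, inv_mul_cancel₀ hD, one_smul] at this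
      have h5 : x ∈ f (cyc 1 1 0) := by
        have := sub_mem hxy (hf.mono bot_le h4)
        simpa using this
      have h6 := hf.mono (inf_a1 (n := k * m))
      rw [hf.2.1] at h6
      exact h6 (Submodule.mem_inf.mpr ⟨h5, hx⟩)
    have h2 : f (cyc 1 (k : ZMod (k * m)) 0 ⊓ cyc 1 0 0) = f ⊥ :=
      le_antisymm h1 (hf.mono bot_le)
    have h3 := hf.1 h2
    have h4 : (![(m : ZMod (k * m)), 0, 0] : T (k * m)) ∈
        cyc 1 (k : ZMod (k * m)) 0 ⊓ cyc 1 0 0 := by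
      refine AddSubgroup.mem_inf.mpr ⟨⟨(m : ZMod (k * m)), ?_⟩, ⟨(m : ZMod (k * m)), by simp⟩⟩
      have : (m : ZMod (k * m)) * (k : ZMod (k * m)) = 0 := by
        rw [mul_comm, ← Nat.cast_mul, ZMod.natCast_self]
      rw [this, mul_one, mul_zero]
    rw [h3, AddSubgroup.mem_bot] at h4
    have h5 := congrFun h4 0
    simp at h5
    rw [ZMod.natCast_eq_zero_iff] at h5
    have := Nat.le_of_dvd (by omega) h5
    nlinarith

end main

/-- a subgroup `C` of `A` mapping onto `B` gives a lattice embedding `Sub B → Sub A` -/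
theorem section_embedding {A : Type w} [AddCommGroup A] {B : Type w'} [AddCommGroup B]
    (C : AddSubgroup A) (ψ : C →+ B) (hψ : Function.Surjective ψ) :
    IsLatticeEmbedding (fun X : AddSubgroup B => (X.comap ψ).map C.subtype) := by
  refine ⟨?_, ?_, ?_⟩
  · intro X Y h
    exact AddSubgroup.comap_injective hψ (AddSubgroup.map_injective C.subtype_injective h)
  · intro X Y
    show ((X ⊓ Y).comap ψ).map C.subtype = _
    rw [AddSubgroup.comap_inf, AddSubgroup.map_inf _ _ _ C.subtype_injective]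
  · intro X Y
    show ((X ⊔ Y).comap ψ).map C.subtype = _
    rw [← AddSubgroup.comap_sup_eq ψ X Y hψ, AddSubgroup.map_sup]

end Pool.Agent.TH99.SubEmb
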