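import Pool.Agent.H357R3.HoroInv

/-!
# Finite orbits in countable horofunction boundaries
-/

set_option autoImplicit false

namespace Pool.Agent.TH99.FinOrb

open Pool.Agent.PackIndex Pool.Agent.Horo

universe u

variable {G : Type u} [Group G] {L : G → ℕ}

/-- If the horofunction boundary of an infinite amenable group is countable, it contains a finite
orbit. -/
theorem exists_finite_orbit [Infinite G] (hL : LenFun L) (ham : IsAmenable G)
    (hcount : (closure (Set.range (bf L)) \ Set.range (bf L)).Countable) :
    ∃ β : Fn G, (MulAction.orbit G β).Finite ∧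
      ∀ (F : Finset G) (n : ℕ), ∃ x, n ≤ L x ∧ ∀ z ∈ F, bf L x z = β.1 z := by
  classical
  obtain ⟨m, m0, m1, madd, minv⟩ := ham
  obtain ⟨b, -, η, hη, hbη⟩ := exists_atom hL m0 m1 madd hcount
  have mempty : m ∅ = 0 := by
    have h1 := madd ∅ ∅ (Set.disjoint_empty _)
    rw [Set.union_empty] at h1
    linarith
  have hne : ∀ F, (cyl L b F).Nonempty := by
    intro F
    by_contra h
    rw [Set.not_nonempty_iff_eq_empty] at h
    have := hbη F
    rw [h, mempty] at this
    linarith
  have hb1 : b 1 = 0 := by
    obtain ⟨x, hx⟩ := hne {1}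
    rw [← hx 1 (Finset.mem_singleton_self 1), bf_one]
  let β : Fn G := ⟨b, hb1⟩
  -- the orbit is finite
  have horb : (MulAction.orbit G β).Finite := by
    by_contra hinf
    obtain ⟨n, hn⟩ := exists_nat_gt (1 / η)
    obtain ⟨t, hts, htc⟩ := Set.Infinite.exists_subset_card_eq hinf n
    have hz : ∀ p : Fn G × Fn G, ∃ z, p.1 ≠ p.2 → p.1.1 z ≠ p.2.1 z := by
      intro p
      by_cases h : p.1 = p.2
      · exact ⟨1, fun h' => absurd h h'⟩
      · by_contra hcon
        push Not at hcon
        exact h (Subtype.ext (funext fun z => (hcon z).2))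
    choose z hz using hz
    let F : Finset G := (t ×ˢ t).image z
    have h1 := card_mul_le (η := η) m0 m1 madd t (fun f => cyl L f.1 F) (by
      intro f hf f' hf' hff'
      rw [Set.disjoint_left]
      intro x hx hx'
      have hzF : z (f, f') ∈ F := Finset.mem_image_of_mem _ (Finset.mem_product.2 ⟨hf, hf'⟩)
      exact hz (f, f') hff' ((hx _ hzF).symm.trans (hx' _ hzF))) (by
      intro f hf
      obtain ⟨g, hg⟩ := hts hf
      have hg' : g • β = f := hg
      have h2 : (fun x => g * x) '' (cyl L b (F.image (fun z => g⁻¹ * z) ∪ {g⁻¹}))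
          ⊆ cyl L f.1 F := by
        rintro _ ⟨x, hx, rfl⟩ z hzF
        show bf L (g * x) z = f.1 z
        rw [bf_smul, hx (g⁻¹ * z) (Finset.mem_union_left _ (Finset.mem_image_of_mem _ hzF)),
          hx g⁻¹ (Finset.mem_union_right _ (Finset.mem_singleton_self _)), ← hg']
        rfl
      calc η ≤ m (cyl L b (F.image (fun z => g⁻¹ * z) ∪ {g⁻¹})) := hbη _
        _ = m ((fun x => g * x) '' (cyl L b (F.image (fun z => g⁻¹ * z) ∪ {g⁻¹}))) :=
          (minv _ _).symm
        _ ≤ _ := fadd_mono m0 madd _ _ h2)
    rw [htc] at h1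
    rw [div_lt_iff₀ hη] at hn
    linarith
  refine ⟨β, horb, fun F n => ?_⟩
  -- the function is not of the form `bf L x`
  have hbA : ∀ x, bf L x ≠ b := by
    intro x₀ hx₀
    have hinj : Function.Injective fun g : G => g • β := by
      intro g g' h
      have h1 : bf L (g * x₀) = bf L (g' * x₀) := by
        funext z
        have h2 := congrFun (congrArg Subtype.val h) z
        rw [bf_smul, bf_smul, hx₀]
        exact h2
      exact mul_right_cancel (bf_inj hL h1)
    exact (Set.infinite_range_of_injective hinj) horb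
  have hz : ∀ x : G, ∃ z, bf L x z ≠ b z := by
    intro x
    by_contra h
    push Not at h
    exact hbA x (funext h)
  choose z hz using hz
  let F' : Finset G := F ∪ (ball hL n).image z
  obtain ⟨x, hx⟩ := hne F'
  refine ⟨x, ?_, fun y hy => hx y (Finset.mem_union_left _ hy)⟩
  by_contra h
  push Not at h
  have h1 : z x ∈ F' := Finset.mem_union_right _
    (Finset.mem_image_of_mem _ ((mem_ball hL).2 h.le))
  exact hz x (hx _ h1)

end Pool.Agent.TH99.FinOrb
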